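import Pool.Agent.W_MP_36bef2_lc.RE

/-!
# The btte-degrees

Enumeration operators, btt-like operators, the reducibility `≤_btte` on sets of natural numbers,
the proof that it is a preorder, its degrees and the degree `0'`.
-/

namespace Pool.Agent.W_MP_36bef2_lc

open Nat.Partrec (Code)
open Nat.Partrec.Code

/-- The finite set with canonical index `u`: the positions of the digits `1` in the binary
expansion of `u`. -/
def canonicalSet (u : ℕ) : Set ℕ := {i | Nat.testBit u i = true}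

/-- An enumeration operator is a recursively enumerable set of pairs `(x, u)`. -/
def IsEnumerationOperator (Ψ : Set (ℕ × ℕ)) : Prop :=
  REPred fun p : ℕ × ℕ => p ∈ Ψ

/-- The family `ε_x` of all finite sets `D_u` with `(x, u)` in the operator. -/
def eps (Ψ : Set (ℕ × ℕ)) (x : ℕ) : Set (Set ℕ) :=
  {D | ∃ u, (x, u) ∈ Ψ ∧ D = canonicalSet u}

/-- The value of an operator at a set `B`: all `x` such that some member of `ε_x` is contained
in `B`. -/
def applyOp (Ψ : Set (ℕ × ℕ)) (B : Set ℕ) : Set ℕ :=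
  {x | ∃ D ∈ eps Ψ x, D ⊆ B}

/-- An operator is btt-like if for some `n` the union of the family `ε_x` has at most `n`
elements, for every `x`. -/
def IsBttLike (Ψ : Set (ℕ × ℕ)) : Prop :=
  ∃ n : ℕ, ∀ x, (⋃₀ eps Ψ x).encard ≤ n

/-- The reducibility `A ≤_btte B`. -/
def BtteReducible (A B : Set ℕ) : Prop :=
  ∃ Ψ : Set (ℕ × ℕ), IsEnumerationOperator Ψ ∧ IsBttLike Ψ ∧ A = applyOp Ψ B

/-! ### Canonical sets -/

theorem mem_canonicalSet {i u : ℕ} : i ∈ canonicalSet u ↔ Nat.testBit u i = true := Iff.rfl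

theorem canonicalSet_zero : canonicalSet 0 = ∅ := by
  ext i
  simp [mem_canonicalSet]

theorem canonicalSet_two_pow (k : ℕ) : canonicalSet (2 ^ k) = {k} := by
  ext i
  simp [mem_canonicalSet, Nat.testBit_two_pow, eq_comm]

theorem lt_of_mem_canonicalSet {i u : ℕ} (h : i ∈ canonicalSet u) : i < u :=
  lt_of_lt_of_le Nat.lt_two_pow_self (Nat.ge_two_pow_of_testBit h)

theorem canonicalSet_finite (u : ℕ) : (canonicalSet u).Finite :=
  (Set.finite_Iio u).subset fun _ hi => lt_of_mem_canonicalSet hi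

theorem exists_canonicalSet (F : Finset ℕ) : ∃ u, canonicalSet u = F := by
  induction F using Finset.induction_on with
  | empty => exact ⟨0, by simp [canonicalSet_zero]⟩
  | insert a F _ ih =>
    obtain ⟨u, hu⟩ := ih
    refine ⟨u ||| 2 ^ a, ?_⟩
    ext i
    have h := Set.ext_iff.1 hu i
    rw [mem_canonicalSet] at h ⊢
    rw [Nat.testBit_lor]
    simp only [Bool.or_eq_true, h, Finset.coe_insert, Set.mem_insert_iff, Nat.testBit_two_pow,
      decide_eq_true_eq]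
    rw [or_comm, eq_comm]

theorem mem_applyOp {Ψ : Set (ℕ × ℕ)} {B : Set ℕ} {x : ℕ} :
    x ∈ applyOp Ψ B ↔ ∃ u, (x, u) ∈ Ψ ∧ canonicalSet u ⊆ B := by
  constructor
  · rintro ⟨D, ⟨u, hu, rfl⟩, hD⟩
    exact ⟨u, hu, hD⟩
  · rintro ⟨u, hu, hD⟩
    exact ⟨_, ⟨u, hu, rfl⟩, hD⟩

theorem mem_sUnion_eps {Ψ : Set (ℕ × ℕ)} {x i : ℕ} :
    i ∈ ⋃₀ eps Ψ x ↔ ∃ u, (x, u) ∈ Ψ ∧ i ∈ canonicalSet u := by
  constructor
  · rintro ⟨D, ⟨u, hu, rfl⟩, hD⟩
    exact ⟨u, hu, hD⟩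
  · rintro ⟨u, hu, hD⟩
    exact ⟨_, ⟨u, hu, rfl⟩, hD⟩

theorem primrec_testBit : PrimrecRel fun u i : ℕ => Nat.testBit u i = true := by
  have hpow : Primrec₂ ((· ^ ·) : ℕ → ℕ → ℕ) := Primrec₂.unpaired'.1 Nat.Primrec.pow
  have h : PrimrecRel fun u i : ℕ => u / 2 ^ i % 2 = 1 :=
    Primrec.eq.comp (Primrec.nat_mod.comp (Primrec.nat_div.comp Primrec.fst
      (hpow.comp (Primrec.const 2) Primrec.snd)) (Primrec.const 2)) (Primrec.const 1)
  exact h.of_eq fun u i => by simp [Nat.testBit_eq_decide_div_mod_eq]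

/-! ### `≤_btte` is a preorder -/

theorem btte_refl (A : Set ℕ) : BtteReducible A A := by
  refine ⟨{p | p.2 = 2 ^ p.1}, ?_, ⟨1, fun x => ?_⟩, ?_⟩
  · have hpow : Primrec₂ ((· ^ ·) : ℕ → ℕ → ℕ) := Primrec₂.unpaired'.1 Nat.Primrec.pow
    exact re_of_primrec (Primrec.eq.comp Primrec.snd (hpow.comp (Primrec.const 2) Primrec.fst))
  · have h : ⋃₀ eps {p : ℕ × ℕ | p.2 = 2 ^ p.1} x ⊆ {x} := by
      intro i hi
      obtain ⟨u, hu, hi⟩ := mem_sUnion_eps.1 hi
      have hu' : u = 2 ^ x := hu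
      rw [hu', canonicalSet_two_pow] at hi
      exact hi
    exact (Set.encard_le_encard h).trans (by simp)
  · ext x
    rw [mem_applyOp]
    constructor
    · intro hx
      exact ⟨2 ^ x, rfl, by rw [canonicalSet_two_pow]; simpa using hx⟩
    · rintro ⟨u, hu, hD⟩
      have hu' : u = 2 ^ x := hu
      rw [hu', canonicalSet_two_pow] at hD
      simpa using hD

/-- Composition of enumeration operators. -/
def compOp (Ψ Φ : Set (ℕ × ℕ)) : Set (ℕ × ℕ) :=
  {p | ∃ v, (p.1, v) ∈ Ψ ∧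
    (∀ i < p.2, ¬ Nat.testBit p.2 i = true ∨
      ∃ y, Nat.testBit v y = true ∧ ∃ w, (y, w) ∈ Φ ∧ Nat.testBit w i = true) ∧
    ∀ y < v, ¬ Nat.testBit v y = true ∨
      ∃ w, (y, w) ∈ Φ ∧ ∀ i < w, ¬ Nat.testBit w i = true ∨ Nat.testBit p.2 i = true}

theorem compOp_re {Ψ Φ : Set (ℕ × ℕ)} (hΨ : IsEnumerationOperator Ψ)
    (hΦ : IsEnumerationOperator Φ) : IsEnumerationOperator (compOp Ψ Φ) := by
  have tb := primrec_testBit
  refine re_exists (α := ℕ × ℕ) (p := fun p v => (p.1, v) ∈ Ψ ∧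
    (∀ i < p.2, ¬ Nat.testBit p.2 i = true ∨
      ∃ y, Nat.testBit v y = true ∧ ∃ w, (y, w) ∈ Φ ∧ Nat.testBit w i = true) ∧
    ∀ y < v, ¬ Nat.testBit v y = true ∨
      ∃ w, (y, w) ∈ Φ ∧ ∀ i < w, ¬ Nat.testBit w i = true ∨ Nat.testBit p.2 i = true) ?_
  refine re_and ?_ (re_and ?_ ?_)
  · exact re_comp (p := fun q : ℕ × ℕ => q ∈ Ψ) hΨ
      (f := fun q : (ℕ × ℕ) × ℕ => (q.1.1, q.2))
      (Primrec.pair (Primrec.fst.comp Primrec.fst) Primrec.snd)
  · refine re_forall_lt (α := (ℕ × ℕ) × ℕ) (f := fun q => q.1.2)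
      (p := fun q i => ¬ Nat.testBit q.1.2 i = true ∨
      ∃ y, Nat.testBit q.2 y = true ∧ ∃ w, (y, w) ∈ Φ ∧ Nat.testBit w i = true) ?_
      (Primrec.snd.comp Primrec.fst)
    refine re_or (re_of_primrec ?_) ?_
    · exact (tb.comp (Primrec.snd.comp (Primrec.fst.comp Primrec.fst)) Primrec.snd).not
    · refine re_exists (α := ((ℕ × ℕ) × ℕ) × ℕ) (p := fun q y =>
        Nat.testBit q.1.2 y = true ∧ ∃ w, (y, w) ∈ Φ ∧ Nat.testBit w q.2 = true) ?_
      refine re_and (re_of_primrec ?_) ?_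
      · exact tb.comp (Primrec.snd.comp (Primrec.fst.comp Primrec.fst)) Primrec.snd
      · refine re_exists (α := (((ℕ × ℕ) × ℕ) × ℕ) × ℕ) (p := fun q w =>
          (q.2, w) ∈ Φ ∧ Nat.testBit w q.1.2 = true) ?_
        refine re_and ?_ (re_of_primrec ?_)
        · exact re_comp (p := fun q : ℕ × ℕ => q ∈ Φ) hΦ
            (f := fun q : ((((ℕ × ℕ) × ℕ) × ℕ) × ℕ) × ℕ => (q.1.2, q.2))
            (Primrec.pair (Primrec.snd.comp Primrec.fst) Primrec.snd)
        · exact tb.comp Primrec.snd (Primrec.snd.comp (Primrec.fst.comp Primrec.fst))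
  · refine re_forall_lt (α := (ℕ × ℕ) × ℕ) (f := fun q => q.2)
      (p := fun q y => ¬ Nat.testBit q.2 y = true ∨
      ∃ w, (y, w) ∈ Φ ∧ ∀ i < w, ¬ Nat.testBit w i = true ∨ Nat.testBit q.1.2 i = true) ?_
      Primrec.snd
    refine re_or (re_of_primrec ?_) ?_
    · exact (tb.comp (Primrec.snd.comp Primrec.fst) Primrec.snd).not
    · refine re_exists (α := ((ℕ × ℕ) × ℕ) × ℕ) (p := fun q w =>
        (q.2, w) ∈ Φ ∧ ∀ i < w, ¬ Nat.testBit w i = true ∨ Nat.testBit q.1.1.2 i = true) ?_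
      refine re_and ?_ ?_
      · exact re_comp (p := fun q : ℕ × ℕ => q ∈ Φ) hΦ
          (f := fun q : (((ℕ × ℕ) × ℕ) × ℕ) × ℕ => (q.1.2, q.2))
          (Primrec.pair (Primrec.snd.comp Primrec.fst) Primrec.snd)
      · refine re_forall_lt (α := (((ℕ × ℕ) × ℕ) × ℕ) × ℕ) (f := fun q => q.2)
          (p := fun q i => ¬ Nat.testBit q.2 i = true ∨ Nat.testBit q.1.1.1.2 i = true) ?_
          Primrec.snd
        refine re_of_primrec (PrimrecPred.or ?_ ?_)
        · exact (tb.comp (Primrec.snd.comp Primrec.fst) Primrec.snd).not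
        · exact tb.comp (Primrec.snd.comp (Primrec.fst.comp (Primrec.fst.comp
            (Primrec.fst.comp Primrec.fst)))) Primrec.snd

theorem mem_compOp {Ψ Φ : Set (ℕ × ℕ)} {x u : ℕ} :
    (x, u) ∈ compOp Ψ Φ ↔ ∃ v, (x, v) ∈ Ψ ∧
      (∀ i ∈ canonicalSet u, ∃ y ∈ canonicalSet v, ∃ w, (y, w) ∈ Φ ∧ i ∈ canonicalSet w) ∧
      ∀ y ∈ canonicalSet v, ∃ w, (y, w) ∈ Φ ∧ canonicalSet w ⊆ canonicalSet u := by
  constructor
  · rintro ⟨v, h1, h2, h3⟩
    refine ⟨v, h1, fun i hi => ?_, fun y hy => ?_⟩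
    · rcases h2 i (lt_of_mem_canonicalSet hi) with h | ⟨y, hy, w, hw, hi'⟩
      · exact absurd hi h
      · exact ⟨y, hy, w, hw, hi'⟩
    · rcases h3 y (lt_of_mem_canonicalSet hy) with h | ⟨w, hw, h⟩
      · exact absurd hy h
      · refine ⟨w, hw, fun i hi => ?_⟩
        rcases h i (lt_of_mem_canonicalSet hi) with h' | h'
        · exact absurd hi h'
        · exact h'
  · rintro ⟨v, h1, h2, h3⟩
    refine ⟨v, h1, fun i _ => ?_, fun y _ => ?_⟩
    · by_cases hi : Nat.testBit u i = true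
      · obtain ⟨y, hy, w, hw, hi'⟩ := h2 i hi
        exact Or.inr ⟨y, hy, w, hw, hi'⟩
      · exact Or.inl hi
    · by_cases hy : Nat.testBit v y = true
      · obtain ⟨w, hw, h⟩ := h3 y hy
        refine Or.inr ⟨w, hw, fun i _ => ?_⟩
        by_cases hi : Nat.testBit w i = true
        · exact Or.inr (h hi)
        · exact Or.inl hi
      · exact Or.inl hy

theorem applyOp_compOp (Ψ Φ : Set (ℕ × ℕ)) (C : Set ℕ) :
    applyOp (compOp Ψ Φ) C = applyOp Ψ (applyOp Φ C) := by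
  classical
  ext x
  rw [mem_applyOp, mem_applyOp]
  constructor
  · rintro ⟨u, hu, hC⟩
    obtain ⟨v, h1, -, h3⟩ := mem_compOp.1 hu
    refine ⟨v, h1, fun y hy => ?_⟩
    obtain ⟨w, hw, h⟩ := h3 y hy
    exact mem_applyOp.2 ⟨w, hw, h.trans hC⟩
  · rintro ⟨v, h1, h⟩
    have h2 : ∀ y, ∃ w, y ∈ canonicalSet v → (y, w) ∈ Φ ∧ canonicalSet w ⊆ C := by
      intro y
      by_cases hy : y ∈ canonicalSet v
      · obtain ⟨w, hw⟩ := mem_applyOp.1 (h hy)
        exact ⟨w, fun _ => hw⟩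
      · exact ⟨0, fun h => absurd h hy⟩
    choose g hg using h2
    obtain ⟨u, hu⟩ := exists_canonicalSet
      ((canonicalSet_finite v).toFinset.biUnion fun y => (canonicalSet_finite (g y)).toFinset)
    have hmem : ∀ i, i ∈ canonicalSet u ↔ ∃ y ∈ canonicalSet v, i ∈ canonicalSet (g y) := by
      intro i
      rw [hu]
      simp
    refine ⟨u, mem_compOp.2 ⟨v, h1, fun i hi => ?_, fun y hy => ?_⟩, fun i hi => ?_⟩
    · obtain ⟨y, hy, hi⟩ := (hmem i).1 hi
      exact ⟨y, hy, g y, (hg y hy).1, hi⟩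
    · exact ⟨g y, (hg y hy).1, fun i hi => (hmem i).2 ⟨y, hy, hi⟩⟩
    · obtain ⟨y, hy, hi⟩ := (hmem i).1 hi
      exact (hg y hy).2 hi

theorem compOp_bttLike {Ψ Φ : Set (ℕ × ℕ)} (hΨ : IsBttLike Ψ) (hΦ : IsBttLike Φ) :
    IsBttLike (compOp Ψ Φ) := by
  obtain ⟨n, hn⟩ := hΨ
  obtain ⟨m, hm⟩ := hΦ
  refine ⟨n * m, fun x => ?_⟩
  have hfin : (⋃₀ eps Ψ x).Finite := Set.finite_of_encard_le_coe (hn x)
  have hsub : ⋃₀ eps (compOp Ψ Φ) x ⊆ ⋃ y ∈ hfin.toFinset, ⋃₀ eps Φ y := by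
    intro i hi
    obtain ⟨u, hu, hi⟩ := mem_sUnion_eps.1 hi
    obtain ⟨v, h1, h2, -⟩ := mem_compOp.1 hu
    obtain ⟨y, hy, w, hw, hi'⟩ := h2 i hi
    rw [Set.mem_iUnion₂]
    refine ⟨y, ?_, mem_sUnion_eps.2 ⟨w, hw, hi'⟩⟩
    rw [Set.Finite.mem_toFinset]
    exact mem_sUnion_eps.2 ⟨v, h1, hy⟩
  refine (Set.encard_le_encard hsub).trans
    ((Finset.set_encard_biUnion_le _ _).trans ?_)
  have h1 : ∑ y ∈ hfin.toFinset, (⋃₀ eps Φ y).encard ≤ ∑ _y ∈ hfin.toFinset, (m : ℕ∞) :=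
    Finset.sum_le_sum fun y _ => hm y
  refine h1.trans ?_
  rw [Finset.sum_const, nsmul_eq_mul]
  have h2 : ((hfin.toFinset.card : ℕ) : ℕ∞) ≤ n := by
    rw [← Set.encard_coe_eq_coe_finsetCard, Set.Finite.coe_toFinset]
    exact hn x
  push_cast
  gcongr

theorem btte_trans {A B C : Set ℕ} (h1 : BtteReducible A B) (h2 : BtteReducible B C) :
    BtteReducible A C := by
  obtain ⟨Ψ, hΨ, hΨ', rfl⟩ := h1
  obtain ⟨Φ, hΦ, hΦ', rfl⟩ := h2
  exact ⟨compOp Ψ Φ, compOp_re hΨ hΦ, compOp_bttLike hΨ' hΦ', (applyOp_compOp Ψ Φ C).symm⟩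

/-- Sets of natural numbers, to be preordered by `≤_btte`. -/
structure BtteSet where
  /-- the underlying set of natural numbers -/
  toSet : Set ℕ

instance : Preorder BtteSet where
  le A B := BtteReducible A.toSet B.toSet
  le_refl A := btte_refl A.toSet
  le_trans _ _ _ h1 h2 := btte_trans h1 h2

/-- The btte-degrees: equivalence classes of `≤_btte`, with the induced partial order. -/
abbrev BtteDegree : Type := Antisymmetrization BtteSet (· ≤ ·)

/-- The btte-degree of a set. -/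
def degree (A : Set ℕ) : BtteDegree := toAntisymmetrization (· ≤ ·) ⟨A⟩

theorem degree_le_degree {A B : Set ℕ} : degree A ≤ degree B ↔ BtteReducible A B :=
  toAntisymmetrization_le_toAntisymmetrization_iff

/-- The halting set `K`. -/
def haltingSet : Set ℕ := {e | ((Code.ofNatCode e).eval e).Dom}

/-- The degree `0'` of the complement of the halting set. -/
def zeroPrime : BtteDegree := degree haltingSetᶜ

end Pool.Agent.W_MP_36bef2_lc
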