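import Pool.Agent.W_MP_36bef2_lc.Defs

/-!
# Every btte-degree has only countably many minimal covers
-/

namespace Pool.Agent.W_MP_36bef2_lc

open Nat.Partrec (Code)
open Nat.Partrec.Code

/-! ### Bounded r.e. relations are covered by finitely many partial recursive functions -/

/-- `y` is the value at `k` of the `e`-th partial recursive function. -/
def Val (e k y : ℕ) : Prop := y ∈ (Denumerable.ofNat Code e).eval k

theorem exists_selector {R : ℕ → ℕ → Prop} (hR : REPred fun p : ℕ × ℕ => R p.1 p.2) :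
    ∃ e, (∀ k y, Val e k y → R k y) ∧ ∀ k y, R k y → ∃ z, Val e k z := by
  classical
  obtain ⟨Q, hQ, -, hRQ⟩ := re_normal hR
  let f : ℕ →. ℕ := fun k => Nat.rfindOpt fun t =>
    if Q (k, t.unpair.1) t.unpair.2 then some t.unpair.1 else none
  have hf : Partrec f := by
    refine Partrec.rfindOpt (Primrec.to_comp ?_)
    refine Primrec.ite ?_ ?_ (Primrec.const none)
    · exact hQ.comp (Primrec.pair Primrec.fst
        (Primrec.fst.comp (Primrec.unpair.comp Primrec.snd)))
        (Primrec.snd.comp (Primrec.unpair.comp Primrec.snd))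
    · exact Primrec.option_some.comp (Primrec.fst.comp (Primrec.unpair.comp Primrec.snd))
  obtain ⟨c, hc⟩ := exists_code.1 (Partrec.nat_iff.1 hf)
  refine ⟨Encodable.encode c, ?_, ?_⟩
  · intro k y hy
    have hy' : y ∈ f k := by
      have : y ∈ c.eval k := by simpa [Val] using hy
      rwa [hc] at this
    obtain ⟨t, ht⟩ := Nat.rfindOpt_spec hy'
    by_cases hq : Q (k, t.unpair.1) t.unpair.2
    · simp only [hq, if_true, Option.mem_def, Option.some.injEq] at ht
      rw [ht] at hq
      exact (hRQ (k, y)).2 ⟨_, hq⟩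
    · simp [hq] at ht
  · intro k y hy
    obtain ⟨s, hs⟩ := (hRQ (k, y)).1 hy
    have hdom : (f k).Dom := by
      refine Nat.rfindOpt_dom.2 ⟨Nat.pair y s, y, ?_⟩
      simp [hs]
    refine ⟨(f k).get hdom, ?_⟩
    have : (f k).get hdom ∈ c.eval k := by
      rw [hc]
      exact Part.get_mem _
    simpa [Val] using this

theorem val_unique {e k y z : ℕ} (hy : Val e k y) (hz : Val e k z) : y = z :=
  Part.mem_unique hy hz

theorem val_re : REPred fun q : (ℕ × ℕ) × ℕ => Val q.1.1 q.1.2 q.2 := by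
  have h : REPred fun q : (ℕ × ℕ) × ℕ => ∃ s,
      evaln s (Denumerable.ofNat Code q.1.1) q.1.2 = some q.2 := by
    refine re_of_exists (R := fun (q : (ℕ × ℕ) × ℕ) (s : ℕ) =>
      evaln s (Denumerable.ofNat Code q.1.1) q.1.2 = some q.2) ?_
    refine Primrec.eq.comp ?_ (Primrec.option_some.comp (Primrec.snd.comp Primrec.fst))
    exact primrec_evaln.comp ((Primrec.pair Primrec.snd
      ((Primrec.ofNat Code).comp (Primrec.fst.comp (Primrec.fst.comp Primrec.fst)))).pair
      (Primrec.snd.comp (Primrec.fst.comp Primrec.fst)))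
  exact h.of_eq fun q => evaln_complete.symm

theorem cover_of_bounded (c : ℕ) : ∀ R : ℕ → ℕ → Prop, REPred (fun p : ℕ × ℕ => R p.1 p.2) →
    (∀ k, {y | R k y}.encard ≤ c) → ∃ M, ∀ k y, R k y → ∃ e ≤ M, Val e k y := by
  induction c with
  | zero =>
    intro R _ hb
    refine ⟨0, fun k y hy => ?_⟩
    have h := hb k
    simp only [Nat.cast_zero, nonpos_iff_eq_zero, Set.encard_eq_zero] at h
    exact absurd hy (Set.eq_empty_iff_forall_notMem.1 h y)
  | succ c ih =>
    intro R hR hb
    obtain ⟨e, he1, he2⟩ := exists_selector hR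
    let R' : ℕ → ℕ → Prop := fun k y => R k y ∧ ∃ z, Val e k z ∧ z ≠ y
    have hR' : REPred (fun p : ℕ × ℕ => R' p.1 p.2) := by
      refine re_and hR ?_
      refine re_exists (α := ℕ × ℕ) (p := fun p z => Val e p.1 z ∧ z ≠ p.2) ?_
      refine re_and ?_ (re_of_primrec ?_)
      · exact re_comp val_re (f := fun q : (ℕ × ℕ) × ℕ => ((e, q.1.1), q.2))
          (Primrec.pair (Primrec.pair (Primrec.const e) (Primrec.fst.comp Primrec.fst))
            Primrec.snd)
      · exact (Primrec.eq.comp Primrec.snd (Primrec.snd.comp Primrec.fst)).not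
    have hb' : ∀ k, {y | R' k y}.encard ≤ c := by
      intro k
      by_cases hne : ∃ z, Val e k z
      · obtain ⟨z, hz⟩ := hne
        have h1 : {y | R' k y} = {y | R k y} \ {z} := by
          ext y
          constructor
          · rintro ⟨h, z', hz', hne⟩
            refine ⟨h, fun hy => hne ?_⟩
            rw [val_unique hz' hz]
            exact hy.symm
          · rintro ⟨h, hy⟩
            exact ⟨h, z, hz, fun h' => hy h'.symm⟩
        have hzm : z ∈ {y | R k y} := he1 k z hz
        have h2 := Set.encard_sdiff_singleton_add_one hzm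
        rw [← h1] at h2
        have h3 := hb k
        rw [← h2] at h3
        push_cast at h3
        exact (ENat.add_le_add_iff_right ENat.one_ne_top).1 h3
      · have h1 : {y | R' k y} = ∅ := by
          ext y
          simp only [Set.mem_ofPred_eq, Set.mem_empty_iff_false, iff_false]
          rintro ⟨-, z, hz, -⟩
          exact hne ⟨z, hz⟩
        rw [h1]
        simp
    obtain ⟨M, hM⟩ := ih R' hR' hb'
    refine ⟨max M e, fun k y hy => ?_⟩
    obtain ⟨z, hz⟩ := he2 k y hy
    by_cases hzy : z = y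
    · exact ⟨e, le_max_right _ _, hzy ▸ hz⟩
    · obtain ⟨e', he', hv⟩ := hM k y ⟨hy, z, hz, hzy⟩
      exact ⟨e', he'.trans (le_max_left _ _), hv⟩

/-! ### The set of killed elements -/

/-- The number of columns of row `k`. -/
def width (k : ℕ) : ℕ := (k + 1) * (k + 1) + 1

/-- An element `y` in row `k' = y.unpair.1` is killed if it is a value `φ_e(k)` with
`e, k ≤ k'`. -/
def Killed (y : ℕ) : Prop :=
  ∃ e k, e ≤ y.unpair.1 ∧ k ≤ y.unpair.1 ∧ Val e k y

theorem killed_re : REPred Killed := by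
  refine re_exists (α := ℕ) (p := fun y e => ∃ k, e ≤ y.unpair.1 ∧ k ≤ y.unpair.1 ∧
    Val e k y) ?_
  refine re_exists (α := ℕ × ℕ) (p := fun q k => q.2 ≤ q.1.unpair.1 ∧ k ≤ q.1.unpair.1 ∧
    Val q.2 k q.1) ?_
  refine re_and (re_of_primrec ?_) (re_and (re_of_primrec ?_) ?_)
  · exact Primrec.nat_le.comp (Primrec.snd.comp Primrec.fst)
      (Primrec.fst.comp (Primrec.unpair.comp (Primrec.fst.comp Primrec.fst)))
  · exact Primrec.nat_le.comp Primrec.snd
      (Primrec.fst.comp (Primrec.unpair.comp (Primrec.fst.comp Primrec.fst)))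
  · exact re_comp val_re (f := fun q : (ℕ × ℕ) × ℕ => ((q.1.2, q.2), q.1.1))
      (Primrec.pair (Primrec.pair (Primrec.snd.comp Primrec.fst) Primrec.snd)
        (Primrec.fst.comp Primrec.fst))

/-- Some element in every row survives. -/
theorem exists_survivor (k : ℕ) : ∃ j < width k, ¬ Killed (Nat.pair k j) := by
  classical
  by_contra hcon
  push Not at hcon
  -- choose the killer of every element
  have h1 : ∀ j, ∃ p : ℕ × ℕ, j < width k →
      p ∈ Finset.range (k + 1) ×ˢ Finset.range (k + 1) ∧ Val p.1 p.2 (Nat.pair k j) := by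
    intro j
    by_cases hj : j < width k
    · obtain ⟨e, k', he, hk', hv⟩ := hcon j hj
      rw [Nat.unpair_pair] at he hk'
      exact ⟨(e, k'), fun _ => ⟨by simp [Nat.lt_succ_iff.2 he, Nat.lt_succ_iff.2 hk'], hv⟩⟩
    · exact ⟨(0, 0), fun h => absurd h hj⟩
  choose g hg using h1
  have hcard : (Finset.range (k + 1) ×ˢ Finset.range (k + 1)).card <
      (Finset.range (width k)).card := by
    simp [width]
  obtain ⟨i, hi, j, hj, hij, heq⟩ := Finset.exists_ne_map_eq_of_card_lt_of_maps_to hcard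
    (f := g) (fun j hj => (hg j (Finset.mem_range.1 hj)).1)
  have hi' := (hg i (Finset.mem_range.1 hi)).2
  have hj' := (hg j (Finset.mem_range.1 hj)).2
  rw [heq] at hi'
  have h2 := val_unique hi' hj'
  exact hij (Nat.pair_eq_pair.1 h2).2

/-! ### The intermediate set -/

/-- The set `A_B`: copies of the elements of `B` in their rows, together with the killed
elements. -/
def spread (B : Set ℕ) : Set ℕ :=
  {y | y.unpair.2 < width y.unpair.1 ∧ (y.unpair.1 ∈ B ∨ Killed y)}

/-- The join of two sets. -/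
def join (A X : Set ℕ) : Set ℕ :=
  {z | (z % 2 = 0 ∧ z / 2 ∈ A) ∨ (z % 2 = 1 ∧ z / 2 ∈ X)}

/-- The operator producing `spread B` from `B`. -/
def spreadOp : Set (ℕ × ℕ) :=
  {p | p.1.unpair.2 < width p.1.unpair.1 ∧
    (p.2 = 2 ^ p.1.unpair.1 ∨ (p.2 = 0 ∧ Killed p.1))}

theorem spreadOp_re : IsEnumerationOperator spreadOp := by
  have hpow : Primrec₂ ((· ^ ·) : ℕ → ℕ → ℕ) := Primrec₂.unpaired'.1 Nat.Primrec.pow
  have hrow : Primrec fun p : ℕ × ℕ => p.1.unpair.1 :=
    Primrec.fst.comp (Primrec.unpair.comp Primrec.fst)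
  have hwid : Primrec fun p : ℕ × ℕ => width p.1.unpair.1 :=
    Primrec.succ.comp (Primrec.nat_mul.comp (Primrec.succ.comp hrow) (Primrec.succ.comp hrow))
  refine re_and (re_of_primrec ?_) (re_or (re_of_primrec ?_) (re_and (re_of_primrec ?_) ?_))
  · exact Primrec.nat_lt.comp (Primrec.snd.comp (Primrec.unpair.comp Primrec.fst)) hwid
  · exact Primrec.eq.comp Primrec.snd (hpow.comp (Primrec.const 2) hrow)
  · exact Primrec.eq.comp Primrec.snd (Primrec.const 0)
  · exact re_comp killed_re Primrec.fst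

/-- The operator producing `join (spread B) X` from `B`, given an operator producing `X`
from `B`. -/
def joinOp (Θ : Set (ℕ × ℕ)) : Set (ℕ × ℕ) :=
  {p | (p.1 % 2 = 0 ∧ (p.1 / 2, p.2) ∈ spreadOp) ∨ (p.1 % 2 = 1 ∧ (p.1 / 2, p.2) ∈ Θ)}

theorem joinOp_re {Θ : Set (ℕ × ℕ)} (hΘ : IsEnumerationOperator Θ) :
    IsEnumerationOperator (joinOp Θ) := by
  have hmod : Primrec fun p : ℕ × ℕ => p.1 % 2 :=
    Primrec.nat_mod.comp Primrec.fst (Primrec.const 2)
  have hdiv : Primrec fun p : ℕ × ℕ => (p.1 / 2, p.2) :=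
    Primrec.pair (Primrec.nat_div.comp Primrec.fst (Primrec.const 2)) Primrec.snd
  refine re_or (re_and (re_of_primrec ?_) ?_) (re_and (re_of_primrec ?_) ?_)
  · exact Primrec.eq.comp hmod (Primrec.const 0)
  · exact re_comp (p := fun q : ℕ × ℕ => q ∈ spreadOp) spreadOp_re hdiv
  · exact Primrec.eq.comp hmod (Primrec.const 1)
  · exact re_comp (p := fun q : ℕ × ℕ => q ∈ Θ) hΘ hdiv

theorem joinOp_bttLike {Θ : Set (ℕ × ℕ)} (hΘ : IsBttLike Θ) : IsBttLike (joinOp Θ) := by
  obtain ⟨n, hn⟩ := hΘ
  refine ⟨n + 1, fun z => ?_⟩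
  have hsub : ⋃₀ eps (joinOp Θ) z ⊆ ⋃₀ eps Θ (z / 2) ∪ {(z / 2).unpair.1} := by
    intro i hi
    obtain ⟨u, hu, hi⟩ := mem_sUnion_eps.1 hi
    rcases hu with ⟨-, -, hu | ⟨hu, -⟩⟩ | ⟨-, hu⟩
    · right
      have hu' : u = 2 ^ (z / 2).unpair.1 := hu
      rw [hu', canonicalSet_two_pow] at hi
      exact hi
    · have hu' : u = 0 := hu
      rw [hu', canonicalSet_zero] at hi
      exact absurd hi (Set.notMem_empty _)
    · left
      exact mem_sUnion_eps.2 ⟨u, hu, hi⟩
  refine (Set.encard_le_encard hsub).trans ((Set.encard_union_le _ _).trans ?_)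
  push_cast
  refine add_le_add (hn _) ?_
  simp

theorem applyOp_joinOp {Θ : Set (ℕ × ℕ)} {B X : Set ℕ} (hX : X = applyOp Θ B) :
    join (spread B) X = applyOp (joinOp Θ) B := by
  ext z
  rw [mem_applyOp]
  constructor
  · rintro (⟨h0, h1, h2⟩ | ⟨h0, h1⟩)
    · rcases h2 with h2 | h2
      · refine ⟨2 ^ (z / 2).unpair.1, Or.inl ⟨h0, h1, Or.inl rfl⟩, ?_⟩
        rw [canonicalSet_two_pow]
        simpa using h2
      · refine ⟨0, Or.inl ⟨h0, h1, Or.inr ⟨rfl, h2⟩⟩, ?_⟩
        rw [canonicalSet_zero]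
        exact Set.empty_subset _
    · rw [hX] at h1
      obtain ⟨u, hu, hD⟩ := mem_applyOp.1 h1
      exact ⟨u, Or.inr ⟨h0, hu⟩, hD⟩
  · rintro ⟨u, hu, hD⟩
    rcases hu with ⟨h0, h1, hu | ⟨-, hu⟩⟩ | ⟨h0, hu⟩
    · refine Or.inl ⟨h0, h1, Or.inl ?_⟩
      have hu' : u = 2 ^ (z / 2).unpair.1 := hu
      rw [hu', canonicalSet_two_pow] at hD
      simpa using hD
    · exact Or.inl ⟨h0, h1, Or.inr hu⟩
    · refine Or.inr ⟨h0, ?_⟩
      rw [hX]
      exact mem_applyOp.2 ⟨u, hu, hD⟩

theorem join_reducible {B X : Set ℕ} (h : BtteReducible X B) :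
    BtteReducible (join (spread B) X) B := by
  obtain ⟨Θ, h1, h2, h3⟩ := h
  exact ⟨joinOp Θ, joinOp_re h1, joinOp_bttLike h2, applyOp_joinOp h3⟩

theorem reducible_join (A X : Set ℕ) : BtteReducible X (join A X) := by
  have hpow : Primrec₂ ((· ^ ·) : ℕ → ℕ → ℕ) := Primrec₂.unpaired'.1 Nat.Primrec.pow
  refine ⟨{p | p.2 = 2 ^ (2 * p.1 + 1)}, ?_, ⟨1, fun x => ?_⟩, ?_⟩
  · exact re_of_primrec (Primrec.eq.comp Primrec.snd (hpow.comp (Primrec.const 2)
      (Primrec.succ.comp (Primrec.nat_mul.comp (Primrec.const 2) Primrec.fst))))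
  · have h : ⋃₀ eps {p : ℕ × ℕ | p.2 = 2 ^ (2 * p.1 + 1)} x ⊆ {2 * x + 1} := by
      intro i hi
      obtain ⟨u, hu, hi⟩ := mem_sUnion_eps.1 hi
      have hu' : u = 2 ^ (2 * x + 1) := hu
      rw [hu', canonicalSet_two_pow] at hi
      exact hi
    exact (Set.encard_le_encard h).trans (by simp)
  · ext x
    rw [mem_applyOp]
    have h1 : (2 * x + 1) % 2 = 1 := by omega
    have h2 : (2 * x + 1) / 2 = x := by omega
    constructor
    · intro hx
      refine ⟨2 ^ (2 * x + 1), rfl, ?_⟩
      rw [canonicalSet_two_pow, Set.singleton_subset_iff]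
      exact Or.inr ⟨h1, by rwa [h2]⟩
    · rintro ⟨u, hu, hD⟩
      have hu' : u = 2 ^ (2 * x + 1) := hu
      rw [hu', canonicalSet_two_pow, Set.singleton_subset_iff] at hD
      rcases hD with ⟨h, -⟩ | ⟨-, h⟩
      · omega
      · rwa [h2] at h

/-- `B` can be recovered from `join (spread B) X`. -/
theorem mem_iff_of_join {B X : Set ℕ} (k : ℕ) :
    k ∈ B ↔ ∃ j < width k, ¬ Killed (Nat.pair k j) ∧ 2 * Nat.pair k j ∈ join (spread B) X := by
  have hmod : ∀ y, (2 * y) % 2 = 0 := fun y => by omega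
  have hdiv : ∀ y, (2 * y) / 2 = y := fun y => by omega
  constructor
  · intro hk
    obtain ⟨j, hj, hjk⟩ := exists_survivor k
    refine ⟨j, hj, hjk, Or.inl ⟨hmod _, ?_⟩⟩
    rw [hdiv]
    refine ⟨?_, Or.inl ?_⟩ <;> rw [Nat.unpair_pair]
    · exact hj
    · exact hk
  · rintro ⟨j, hj, hjk, ⟨-, h⟩ | ⟨h, -⟩⟩
    · rw [hdiv] at h
      rcases h.2 with h | h
      · rwa [Nat.unpair_pair] at h
      · exact absurd h hjk
    · rw [hmod] at h
      exact absurd h (by norm_num)

/-! ### The two cases -/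

/-- There are only countably many enumeration operators. -/
theorem countable_operators : {Ψ : Set (ℕ × ℕ) | IsEnumerationOperator Ψ}.Countable := by
  let F : Code → Set (ℕ × ℕ) := fun c => {p | (c.eval (Encodable.encode p)).Dom}
  refine (Set.countable_range F).mono fun Ψ hΨ => ?_
  obtain ⟨c, hc⟩ := re_code (α := ℕ × ℕ) (p := fun p => p ∈ Ψ) hΨ
  refine ⟨c, ?_⟩
  ext p
  exact (hc p).symm

/-- Case 1: the sets `B` for which `join (spread B) X` is reducible to `X`. -/
theorem countable_case_one (X : Set ℕ) :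
    {B : Set ℕ | BtteReducible (join (spread B) X) X}.Countable := by
  let G : Set (ℕ × ℕ) → Set ℕ := fun Ψ =>
    {k | ∃ j < width k, ¬ Killed (Nat.pair k j) ∧ 2 * Nat.pair k j ∈ applyOp Ψ X}
  refine (countable_operators.image G).mono ?_
  rintro B ⟨Ψ, h1, -, h3⟩
  refine ⟨Ψ, h1, ?_⟩
  ext k
  rw [mem_iff_of_join (B := B) (X := X) k, h3]
  rfl

/-- Two sets which are recovered from their spreads by the same btt-like operator are equal as
soon as they agree on an initial segment depending only on the operator. -/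
theorem eq_of_agree {Φ : Set (ℕ × ℕ)} (h1 : IsEnumerationOperator Φ) (h2 : IsBttLike Φ) :
    ∃ m, ∀ X B B' : Set ℕ, B = applyOp Φ (join (spread B) X) →
      B' = applyOp Φ (join (spread B') X) → (∀ k < m, k ∈ B ↔ k ∈ B') → B = B' := by
  obtain ⟨c, hc⟩ := h2
  let R : ℕ → ℕ → Prop := fun k y => 2 * y ∈ ⋃₀ eps Φ k
  have hR : REPred (fun p : ℕ × ℕ => R p.1 p.2) := by
    have h : REPred (fun p : ℕ × ℕ => ∃ u, (p.1, u) ∈ Φ ∧ Nat.testBit u (2 * p.2) = true) := by
      refine re_exists (α := ℕ × ℕ) (p := fun p u => (p.1, u) ∈ Φ ∧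
        Nat.testBit u (2 * p.2) = true) ?_
      refine re_and ?_ (re_of_primrec ?_)
      · exact re_comp (p := fun q : ℕ × ℕ => q ∈ Φ) h1
          (f := fun q : (ℕ × ℕ) × ℕ => (q.1.1, q.2))
          (Primrec.pair (Primrec.fst.comp Primrec.fst) Primrec.snd)
      · exact primrec_testBit.comp Primrec.snd (Primrec.nat_mul.comp (Primrec.const 2)
          (Primrec.snd.comp Primrec.fst))
    exact h.of_eq fun p => mem_sUnion_eps.symm
  have hb : ∀ k, {y | R k y}.encard ≤ c := by
    intro k
    have hinj : Set.InjOn (fun y : ℕ => 2 * y) {y | R k y} := fun a _ b _ hab => by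
      have : 2 * a = 2 * b := hab
      omega
    rw [← hinj.encard_image]
    refine (Set.encard_le_encard ?_).trans (hc k)
    rintro _ ⟨y, hy, rfl⟩
    exact hy
  obtain ⟨M, hM⟩ := cover_of_bounded c R hR hb
  refine ⟨M, fun X B B' hB hB' hag => ?_⟩
  have key : ∀ k, k ∈ B ↔ k ∈ B' := by
    intro k
    induction k using Nat.strong_induction_on with
    | _ k ih =>
      by_cases hk : k < M
      · exact hag k hk
      · have hk' : M ≤ k := not_lt.1 hk
        have hmem : ∀ z ∈ ⋃₀ eps Φ k, z ∈ join (spread B) X ↔ z ∈ join (spread B') X := by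
          intro z hz
          have hz2 : ∀ C : Set ℕ, z ∈ join (spread C) X ↔
              (z % 2 = 0 ∧ z / 2 ∈ spread C) ∨ (z % 2 = 1 ∧ z / 2 ∈ X) := fun C => Iff.rfl
          rw [hz2, hz2]
          by_cases hpar : z % 2 = 0
          · have hzz : 2 * (z / 2) = z := by omega
            have hRz : R k (z / 2) := by
              change 2 * (z / 2) ∈ _
              rwa [hzz]
            have hsp : z / 2 ∈ spread B ↔ z / 2 ∈ spread B' := by
              by_cases hrow : (z / 2).unpair.1 < k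
              · have := ih _ hrow
                simp only [spread, Set.mem_ofPred_eq, this]
              · have hkill : Killed (z / 2) := by
                  obtain ⟨e, he, hv⟩ := hM k _ hRz
                  exact ⟨e, k, he.trans (hk'.trans (not_lt.1 hrow)), not_lt.1 hrow, hv⟩
                simp only [spread, Set.mem_ofPred_eq, hkill, or_true, and_true]
            rw [hsp]
          · simp only [hpar, false_and, false_or]
        rw [hB, hB', mem_applyOp, mem_applyOp]
        have hsub : ∀ u, (k, u) ∈ Φ → (canonicalSet u ⊆ join (spread B) X ↔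
            canonicalSet u ⊆ join (spread B') X) := by
          intro u hu
          constructor
          · intro h z hz
            exact (hmem z (mem_sUnion_eps.2 ⟨u, hu, hz⟩)).1 (h hz)
          · intro h z hz
            exact (hmem z (mem_sUnion_eps.2 ⟨u, hu, hz⟩)).2 (h hz)
        constructor
        · rintro ⟨u, hu, h⟩
          exact ⟨u, hu, (hsub u hu).1 h⟩
        · rintro ⟨u, hu, h⟩
          exact ⟨u, hu, (hsub u hu).2 h⟩
  exact Set.ext key

/-- Case 2: the sets `B` which are reducible to `join (spread B) X`. -/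
theorem countable_case_two (X : Set ℕ) :
    {B : Set ℕ | BtteReducible B (join (spread B) X)}.Countable := by
  have hsub : {B : Set ℕ | BtteReducible B (join (spread B) X)} ⊆
      ⋃ Φ ∈ {Ψ : Set (ℕ × ℕ) | IsEnumerationOperator Ψ},
        {B : Set ℕ | IsBttLike Φ ∧ B = applyOp Φ (join (spread B) X)} := by
    rintro B ⟨Φ, h1, h2, h3⟩
    rw [Set.mem_iUnion₂]
    exact ⟨Φ, h1, h2, h3⟩
  refine Set.Countable.mono hsub (countable_operators.biUnion fun Φ h1 => ?_)
  by_cases h2 : IsBttLike Φ
  · obtain ⟨m, hm⟩ := eq_of_agree h1 h2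
    classical
    let f : Set ℕ → Finset ℕ := fun B => (Finset.range m).filter (· ∈ B)
    refine Set.MapsTo.countable_of_injOn (f := f) (t := Set.univ)
      (fun _ _ => Set.mem_univ _) ?_ (Set.to_countable _)
    intro B hB B' hB' hf
    refine hm X B B' hB.2 hB'.2 fun k hk => ?_
    have h : k ∈ f B ↔ k ∈ f B' := by rw [hf]
    simpa [f, hk] using h
  · have hempty : {B : Set ℕ | IsBttLike Φ ∧ B = applyOp Φ (join (spread B) X)} = ∅ := by
      ext B
      simp [h2]
    rw [hempty]
    exact Set.countable_empty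

/-! ### Minimal covers -/

theorem countable_minimal_covers (a : BtteDegree) : {b : BtteDegree | a ⋖ b}.Countable := by
  induction a using Antisymmetrization.ind with
  | _ X =>
  obtain ⟨X⟩ := X
  change {b : BtteDegree | degree X ⋖ b}.Countable
  have hsub : {b : BtteDegree | degree X ⋖ b} ⊆ degree ''
      ({B : Set ℕ | BtteReducible (join (spread B) X) X} ∪
        {B : Set ℕ | BtteReducible B (join (spread B) X)}) := by
    intro b
    induction b using Antisymmetrization.ind with
    | _ B =>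
    obtain ⟨B⟩ := B
    intro hb
    change degree X ⋖ degree B at hb
    refine ⟨B, ?_, rfl⟩
    have hXB : BtteReducible X B := degree_le_degree.1 hb.le
    have h1 : degree X ≤ degree (join (spread B) X) :=
      degree_le_degree.2 (reducible_join _ _)
    have h2 : degree (join (spread B) X) ≤ degree B :=
      degree_le_degree.2 (join_reducible hXB)
    rcases hb.eq_or_eq h1 h2 with h | h
    · exact Or.inl (degree_le_degree.1 h.le)
    · exact Or.inr (degree_le_degree.1 h.ge)
  exact (((countable_case_one X).union (countable_case_two X)).image _).mono hsub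

end Pool.Agent.W_MP_36bef2_lc
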