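import Mathlib

/-!
# Closure properties of recursively enumerable predicates

All sets of natural numbers and of pairs are handled through Mathlib's `REPred`.
-/

namespace Pool.Agent.W_MP_36bef2_lc

open Nat.Partrec (Code)
open Nat.Partrec.Code

variable {α : Type*} {β : Type*} [Primcodable α] [Primcodable β]

/-- The projection of a primitive recursive relation is r.e. -/
theorem re_of_exists {R : α → ℕ → Prop} (hR : PrimrecRel R) :
    REPred fun a => ∃ s, R a s := by
  classical
  have h1 : Primrec₂ (fun (a : α) (s : ℕ) => decide (R a s)) := hR.decide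
  have h2 : Partrec (fun a : α => Nat.rfind fun s => Part.some (decide (R a s))) :=
    Partrec.rfind h1.to_comp.partrec₂
  refine h2.dom_re.of_eq fun a => ?_
  rw [Nat.rfind_dom]
  constructor
  · rintro ⟨n, hn, -⟩
    exact ⟨n, by simpa using hn⟩
  · rintro ⟨n, hn⟩
    exact ⟨n, by simpa using hn, fun _ => trivial⟩

/-- Every r.e. predicate is the domain of a coded partial recursive function. -/
theorem re_code {p : α → Prop} (hp : REPred p) :
    ∃ c : Code, ∀ a, p a ↔ (eval c (Encodable.encode a)).Dom := by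
  obtain ⟨c, hc⟩ := exists_code.1 hp
  refine ⟨c, fun a => ?_⟩
  rw [hc]
  simp [Part.dom_iff_mem]

/-- Normal form of r.e. predicates: a monotone union of primitive recursive stages. -/
theorem re_normal {p : α → Prop} (hp : REPred p) :
    ∃ R : α → ℕ → Prop, PrimrecRel R ∧ (∀ a s t, s ≤ t → R a s → R a t) ∧
      ∀ a, p a ↔ ∃ s, R a s := by
  obtain ⟨c, hc⟩ := re_code hp
  refine ⟨fun a s => (evaln s c (Encodable.encode a)).isSome, ?_, ?_, ?_⟩
  · have h : Primrec (fun q : α × ℕ => (evaln q.2 c (Encodable.encode q.1)).isSome) :=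
      Primrec.option_isSome.comp (primrec_evaln.comp
        ((Primrec.pair Primrec.snd (Primrec.const c)).pair
          (Primrec.encode.comp Primrec.fst)))
    exact (primrecPred_iff_primrec_decide (p := fun q : α × ℕ =>
      ((evaln q.2 c (Encodable.encode q.1)).isSome : Prop))).2 (h.of_eq fun q => by simp)
  · intro a s t hst h
    rw [Option.isSome_iff_exists] at h ⊢
    obtain ⟨x, hx⟩ := h
    exact ⟨x, evaln_mono hst hx⟩
  · intro a
    rw [hc a, Part.dom_iff_mem]
    constructor
    · rintro ⟨x, hx⟩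
      obtain ⟨k, hk⟩ := evaln_complete.1 hx
      exact ⟨k, Option.isSome_iff_exists.2 ⟨x, hk⟩⟩
    · rintro ⟨s, hs⟩
      rw [Option.isSome_iff_exists] at hs
      obtain ⟨x, hx⟩ := hs
      exact ⟨x, evaln_sound hx⟩

theorem re_comp {p : β → Prop} (hp : REPred p) {f : α → β} (hf : Primrec f) :
    REPred fun a => p (f a) := by
  obtain ⟨R, hR, -, hpR⟩ := re_normal hp
  refine (re_of_exists (R := fun a s => R (f a) s) ?_).of_eq fun a => (hpR (f a)).symm
  exact hR.comp (hf.comp Primrec.fst) Primrec.snd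

theorem re_of_primrec {p : α → Prop} (hp : PrimrecPred p) : REPred p :=
  hp.computablePred.to_re

theorem re_and {p q : α → Prop} (hp : REPred p) (hq : REPred q) :
    REPred fun a => p a ∧ q a := by
  obtain ⟨R, hR, hm, hpR⟩ := re_normal hp
  obtain ⟨S, hS, hm', hqS⟩ := re_normal hq
  refine (re_of_exists (R := fun a s => R a s ∧ S a s) ?_).of_eq fun a => ?_
  · exact PrimrecPred.and hR hS
  · rw [hpR, hqS]
    constructor
    · rintro ⟨s, h1, h2⟩
      exact ⟨⟨s, h1⟩, ⟨s, h2⟩⟩
    · rintro ⟨⟨s, h1⟩, ⟨t, h2⟩⟩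
      exact ⟨max s t, hm _ _ _ (le_max_left _ _) h1, hm' _ _ _ (le_max_right _ _) h2⟩

theorem re_or {p q : α → Prop} (hp : REPred p) (hq : REPred q) :
    REPred fun a => p a ∨ q a := by
  obtain ⟨R, hR, -, hpR⟩ := re_normal hp
  obtain ⟨S, hS, -, hqS⟩ := re_normal hq
  refine (re_of_exists (R := fun a s => R a s ∨ S a s) ?_).of_eq fun a => ?_
  · exact PrimrecPred.or hR hS
  · rw [hpR, hqS]
    constructor
    · rintro ⟨s, h1 | h1⟩
      · exact Or.inl ⟨s, h1⟩
      · exact Or.inr ⟨s, h1⟩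
    · rintro (⟨s, h1⟩ | ⟨s, h1⟩)
      · exact ⟨s, Or.inl h1⟩
      · exact ⟨s, Or.inr h1⟩

theorem re_exists {p : α → ℕ → Prop} (hp : REPred fun q : α × ℕ => p q.1 q.2) :
    REPred fun a => ∃ n, p a n := by
  obtain ⟨R, hR, -, hpR⟩ := re_normal hp
  refine (re_of_exists (R := fun a s => R (a, s.unpair.1) s.unpair.2) ?_).of_eq fun a => ?_
  · exact hR.comp (Primrec.pair Primrec.fst
      (Primrec.fst.comp (Primrec.unpair.comp Primrec.snd)))
      (Primrec.snd.comp (Primrec.unpair.comp Primrec.snd))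
  · constructor
    · rintro ⟨s, hs⟩
      exact ⟨s.unpair.1, (hpR _).2 ⟨_, hs⟩⟩
    · rintro ⟨n, hn⟩
      obtain ⟨s, hs⟩ := (hpR (a, n)).1 hn
      exact ⟨Nat.pair n s, by simpa using hs⟩

theorem re_forall_lt {p : α → ℕ → Prop} (hp : REPred fun q : α × ℕ => p q.1 q.2)
    {f : α → ℕ} (hf : Primrec f) :
    REPred fun a => ∀ y < f a, p a y := by
  obtain ⟨R, hR, hm, hpR⟩ := re_normal hp
  have h1 : PrimrecRel (fun (n : ℕ) (b : α × ℕ) => ∀ y < n, R (b.1, y) b.2) := by
    have h0 : PrimrecRel (fun (y : ℕ) (b : α × ℕ) => R (b.1, y) b.2) :=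
      hR.comp (Primrec.pair (Primrec.fst.comp Primrec.snd) Primrec.fst)
        (Primrec.snd.comp Primrec.snd)
    exact (h0.forall_mem_list.comp (Primrec.list_range.comp Primrec.fst) Primrec.snd).of_eq
      (by simp)
  refine (re_of_exists (R := fun a s => ∀ y < f a, R (a, y) s) ?_).of_eq fun a => ?_
  · exact (h1.comp (hf.comp Primrec.fst) Primrec.id :
      PrimrecPred fun q : α × ℕ => ∀ y < f q.1, R (q.1, y) q.2)
  · constructor
    · rintro ⟨s, hs⟩ y hy
      exact (hpR (a, y)).2 ⟨s, hs y hy⟩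
    · intro h
      have h2 : ∀ y : ℕ, ∃ s, y < f a → R (a, y) s := by
        intro y
        by_cases hy : y < f a
        · obtain ⟨s, hs⟩ := (hpR (a, y)).1 (h y hy)
          exact ⟨s, fun _ => hs⟩
        · exact ⟨0, fun h => absurd h hy⟩
      choose g hg using h2
      refine ⟨(Finset.range (f a)).sup g, fun y hy => ?_⟩
      exact hm _ _ _ (Finset.le_sup (f := g) (Finset.mem_range.2 hy)) (hg y hy)

end Pool.Agent.W_MP_36bef2_lc
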